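import Pool.Agent.Helper58.ExtMain

set_option autoImplicit false

namespace Pool.Agent.Results.MP_71b3bb_an.NonReflexiveQuotient

open MeasureTheory Pool.Agent.Helper58.Ext

/-- **Negative answer to Q1 of `MP_71b3bb_an`.** There are a compact metrizable space `S`, a
uniform algebra `A` on `S` satisfying all the hypotheses, and an extremal measure `μ`, such that
the quotient Banach space `L^∞(μ) / B` is not reflexive. -/
theorem result : ∃ (S : Type) (_ : TopologicalSpace S) (_ : CompactSpace S)
    (_ : TopologicalSpace.MetrizableSpace S) (_ : MeasurableSpace S) (_ : BorelSpace S)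
    (A : Subalgebra ℂ C(S, ℂ)) (μ : FiniteMeasure S),
    IsAdmissible A ∧ IsExtremal A μ ∧ QuotientNotReflexive A (μ : Measure S) :=
  ⟨Disc, inferInstance, inferInstance, inferInstance, inferInstance, inferInstance, DA, muF,
    DA_admissible, extremal, quotient_not_reflexive⟩

end Pool.Agent.Results.MP_71b3bb_an.NonReflexiveQuotient
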